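import Mathlib

set_option autoImplicit false
open Filter Topology

namespace Pool.Agent.H509R3

/-- finite continued fraction value -/
noncomputable def cv : (ℕ → ℕ) → ℕ → ℝ
  | a, 0 => a 0
  | a, (n + 1) => a 0 + 1 / cv (fun j => a (j + 1)) n

noncomputable def mt (b : ℕ) : Matrix (Fin 2) (Fin 2) ℝ := !![(b : ℝ), 1; 1, 0]

noncomputable def pm (a : ℕ → ℕ) (n : ℕ) : Matrix (Fin 2) (Fin 2) ℝ :=
  (List.map (fun j : ℕ => (!![(a j : ℝ), 1; 1, 0] : Matrix (Fin 2) (Fin 2) ℝ)) (List.range (n + 1))).prod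

lemma pm_succ (a : ℕ → ℕ) (n : ℕ) :
    pm a (n + 1) = !![(a 0 : ℝ), 1; 1, 0] * pm (fun j => a (j + 1)) n := by
  unfold pm
  rw [List.range_succ_eq_map (n := n + 1), List.map_cons, List.prod_cons, List.map_map]
  rfl

lemma pm_zero (a : ℕ → ℕ) : pm a 0 = !![(a 0 : ℝ), 1; 1, 0] := by
  simp [pm]

lemma cv_ge (n : ℕ) : ∀ a : ℕ → ℕ, (∀ j, 2 ≤ a j) → (a 0 : ℝ) ≤ cv a n := by
  induction n with
  | zero => intro a _; simp [cv]
  | succ n ih =>
    intro a ha
    have h1 := ih (fun j => a (j + 1)) (fun j => ha (j + 1))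
    have h2 : (2 : ℝ) ≤ a (0 + 1) := by exact_mod_cast ha (0 + 1)
    simp only [cv]
    have : 0 < 1 / cv (fun j => a (j + 1)) n := by
      apply one_div_pos.mpr
      linarith
    linarith

lemma pm_cv (n : ℕ) : ∀ a : ℕ → ℕ, (∀ j, 2 ≤ a j) →
    0 < pm a n 1 0 ∧ pm a n 0 0 = cv a n * pm a n 1 0 := by
  induction n with
  | zero => intro a _; simp [pm_zero, cv]
  | succ n ih =>
    intro a ha
    obtain ⟨h1, h2⟩ := ih (fun j => a (j + 1)) (fun j => ha (j + 1))
    have h3 := cv_ge n (fun j => a (j + 1)) (fun j => ha (j + 1))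
    have h4 : (2 : ℝ) ≤ a (0 + 1) := by exact_mod_cast ha (0 + 1)
    have h5 : 0 < cv (fun j => a (j + 1)) n := by linarith
    rw [pm_succ]
    simp only [Matrix.mul_apply, Fin.sum_univ_two, Matrix.of_apply, Matrix.cons_val', Matrix.cons_val_zero,
      Matrix.cons_val_one, Matrix.cons_val_fin_one, one_mul, zero_mul, add_zero, cv]
    constructor
    · rw [h2]; positivity
    · rw [h2]; field_simp

lemma cv_eq (a : ℕ → ℕ) (ha : ∀ j, 2 ≤ a j) (n : ℕ) : pm a n 0 0 / pm a n 1 0 = cv a n := by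
  obtain ⟨h1, h2⟩ := pm_cv n a ha
  rw [h2]; field_simp

lemma cv_cauchy (n : ℕ) : ∀ a : ℕ → ℕ, (∀ j, 2 ≤ a j) → dist (cv a n) (cv a (n + 1)) ≤ 1 * (1 / 4 : ℝ) ^ n := by
  induction n with
  | zero =>
    intro a ha
    have h4 : (2 : ℝ) ≤ a (0 + 1) := by exact_mod_cast ha (0 + 1)
    simp only [cv, Real.dist_eq, pow_zero, mul_one]
    have : (a 0 : ℝ) - (a 0 + 1 / (a (0 + 1) : ℝ)) = - (1 / (a (0 + 1) : ℝ)) := by ring
    rw [this, abs_neg, abs_of_pos (by positivity), div_le_one (by linarith)]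
    linarith
  | succ n ih =>
    intro a ha
    have h1 := ih (fun j => a (j + 1)) (fun j => ha (j + 1))
    have h3 := cv_ge n (fun j => a (j + 1)) (fun j => ha (j + 1))
    have h3' := cv_ge (n + 1) (fun j => a (j + 1)) (fun j => ha (j + 1))
    have h4 : (2 : ℝ) ≤ a (0 + 1) := by exact_mod_cast ha (0 + 1)
    rw [Real.dist_eq] at h1 ⊢
    set u := cv (fun j => a (j + 1)) n with hu
    set v := cv (fun j => a (j + 1)) (n + 1) with hv
    have e : cv a (n + 1) - cv a (n + 1 + 1) = -(u - v) / (u * v) := by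
      have e1 : cv a (n + 1) = a 0 + 1 / u := rfl
      have e2 : cv a (n + 1 + 1) = a 0 + 1 / v := rfl
      rw [e1, e2]
      have : u ≠ 0 := by intro h; linarith
      have : v ≠ 0 := by intro h; linarith
      field_simp
      ring
    have huv : 4 ≤ u * v := by nlinarith
    rw [e, abs_div, abs_neg, abs_of_pos (by linarith : 0 < u * v), div_le_iff₀ (by linarith)]
    rw [one_mul, pow_succ] at *
    have : (0 : ℝ) ≤ (1 / 4) ^ n := by positivity
    nlinarith

/-- the infinite continued fraction value -/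
noncomputable def X (a : ℕ → ℕ) : ℝ := limUnder atTop (cv a)

lemma X_tendsto (a : ℕ → ℕ) (ha : ∀ j, 2 ≤ a j) : Tendsto (cv a) atTop (𝓝 (X a)) := by
  have : CauchySeq (cv a) := cauchySeq_of_le_geometric (1 / 4) 1 (by norm_num) (fun n => cv_cauchy n a ha)
  exact this.tendsto_limUnder

lemma X_ge (a : ℕ → ℕ) (ha : ∀ j, 2 ≤ a j) : (a 0 : ℝ) ≤ X a :=
  ge_of_tendsto' (X_tendsto a ha) (fun n => cv_ge n a ha)

lemma X_rec (a : ℕ → ℕ) (ha : ∀ j, 2 ≤ a j) : X a = a 0 + 1 / X (fun j => a (j + 1)) := by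
  have h1 := X_tendsto a ha
  have h2 := X_tendsto (fun j => a (j + 1)) (fun j => ha (j + 1))
  have h3 := X_ge (fun j => a (j + 1)) (fun j => ha (j + 1))
  have h4 : (2 : ℝ) ≤ a (0 + 1) := by exact_mod_cast ha (0 + 1)
  have h5 : X (fun j => a (j + 1)) ≠ 0 := by intro h; linarith
  have h6 : Tendsto (fun n => cv a (n + 1)) atTop (𝓝 (X a)) := h1.comp (tendsto_add_atTop_nat 1)
  have h7 : Tendsto (fun n => cv a (n + 1)) atTop (𝓝 (a 0 + 1 / X (fun j => a (j + 1)))) := by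
    simp only [cv]
    exact (tendsto_const_nhds.div h2 h5).const_add _
  exact tendsto_nhds_unique h6 h7

lemma X_le (a : ℕ → ℕ) (ha : ∀ j, 2 ≤ a j) : X a ≤ a 0 + 1 := by
  rw [X_rec a ha]
  have h3 := X_ge (fun j => a (j + 1)) (fun j => ha (j + 1))
  have h4 : (2 : ℝ) ≤ a (0 + 1) := by exact_mod_cast ha (0 + 1)
  have : 1 / X (fun j => a (j + 1)) ≤ 1 := by
    rw [div_le_one (by linarith)]; linarith
  linarith

/-- contraction product along the first `n` letters -/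
noncomputable def gp (a : ℕ → ℕ) (n : ℕ) : ℝ := ∏ j ∈ Finset.range n, (1 / ((a j : ℝ) + 1) ^ 2)

lemma gp_pos (a : ℕ → ℕ) (n : ℕ) : 0 < gp a n := Finset.prod_pos (fun j _ => by positivity)

lemma gp_succ (a : ℕ → ℕ) (n : ℕ) :
    gp a (n + 1) = (1 / ((a 0 : ℝ) + 1) ^ 2) * gp (fun j => a (j + 1)) n := by
  unfold gp
  rw [Finset.prod_range_succ']
  ring

lemma sep_aux (M : ℝ) (hM : 0 < M) (n : ℕ) : ∀ a b : ℕ → ℕ, (∀ j, 2 ≤ a j) → (∀ j, 2 ≤ b j) →
    (∀ j, (a j : ℝ) + 1 ≤ M) → (∀ j, (b j : ℝ) + 1 ≤ M) →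
    (∀ j, a j % 8 = b j % 8) →
    (∀ j < n, a j = b j) → a n ≠ b n →
    (7 / M ^ 2) * gp a n * (((a 0 : ℝ) + 1) * (b 0 + 1)) ≤ |X a - X b| := by
  induction n with
  | zero =>
    intro a b ha hb hMa hMb h8 _ hne
    have h1 := X_ge a ha
    have h2 := X_le a ha
    have h3 := X_ge b hb
    have h4 := X_le b hb
    have h7 : (7 : ℝ) ≤ |X a - X b| := by
      rcases lt_or_gt_of_ne hne with h | h
      · have : a 0 + 8 ≤ b 0 := by have := h8 0; omega
        have h' : (a 0 : ℝ) + 8 ≤ b 0 := by exact_mod_cast this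
        rw [abs_sub_comm]
        exact le_trans (by linarith) (le_abs_self _)
      · have : b 0 + 8 ≤ a 0 := by have := h8 0; omega
        have h' : (b 0 : ℝ) + 8 ≤ a 0 := by exact_mod_cast this
        exact le_trans (by linarith) (le_abs_self _)
    have h8 : ((a 0 : ℝ) + 1) * (b 0 + 1) ≤ M ^ 2 := by
      have := hMa 0
      have := hMb 0
      rw [sq]
      apply mul_le_mul <;> first | assumption | positivity
    have h9 : (7 / M ^ 2) * (((a 0 : ℝ) + 1) * (b 0 + 1)) ≤ 7 := by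
      rw [div_mul_eq_mul_div, div_le_iff₀ (by positivity)]
      linarith
    simp only [gp, Finset.range_zero, Finset.prod_empty, mul_one]
    linarith
  | succ n ih =>
    intro a b ha hb hMa hMb h8 heq hne
    have ih' := ih (fun j => a (j + 1)) (fun j => b (j + 1)) (fun j => ha (j + 1)) (fun j => hb (j + 1))
      (fun j => hMa (j + 1)) (fun j => hMb (j + 1)) (fun j => h8 (j + 1))
      (fun j hj => heq (j + 1) (by omega)) hne
    have h0 : a 0 = b 0 := heq 0 (by omega)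
    have ha1 : (2 : ℝ) ≤ a (0 + 1) := by exact_mod_cast ha (0 + 1)
    have hb1 : (2 : ℝ) ≤ b (0 + 1) := by exact_mod_cast hb (0 + 1)
    have p1 := X_ge (fun j => a (j + 1)) (fun j => ha (j + 1))
    have p2 := X_le (fun j => a (j + 1)) (fun j => ha (j + 1))
    have p3 := X_ge (fun j => b (j + 1)) (fun j => hb (j + 1))
    have p4 := X_le (fun j => b (j + 1)) (fun j => hb (j + 1))
    set u := X (fun j => a (j + 1)) with hu
    set v := X (fun j => b (j + 1)) with hv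
    have hupos : 0 < u := by linarith
    have hvpos : 0 < v := by linarith
    have e : X a - X b = -(u - v) / (u * v) := by
      rw [X_rec a ha, X_rec b hb, ← hu, ← hv, h0]
      field_simp
      ring
    rw [e, abs_div, abs_neg, abs_of_pos (by positivity : 0 < u * v), le_div_iff₀ (by positivity)]
    rw [gp_succ, ← h0]
    have h10 : (7 / M ^ 2) * ((1 / ((a 0 : ℝ) + 1) ^ 2) * gp (fun j => a (j + 1)) n) *
        (((a 0 : ℝ) + 1) * (a 0 + 1)) = (7 / M ^ 2) * gp (fun j => a (j + 1)) n := by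
      field_simp
    rw [h10]
    have hg := gp_pos (fun j => a (j + 1)) n
    have huv : u * v ≤ ((a (0 + 1) : ℝ) + 1) * (b (0 + 1) + 1) := by
      apply mul_le_mul p2 p4 hvpos.le (by positivity)
    calc (7 / M ^ 2) * gp (fun j => a (j + 1)) n * (u * v)
        ≤ (7 / M ^ 2) * gp (fun j => a (j + 1)) n * (((a (0 + 1) : ℝ) + 1) * (b (0 + 1) + 1)) := by
          apply mul_le_mul_of_nonneg_left huv (by positivity)
      _ ≤ |u - v| := ih'

lemma sep (M : ℝ) (hM : 0 < M) (n : ℕ) (a b : ℕ → ℕ) (ha : ∀ j, 2 ≤ a j) (hb : ∀ j, 2 ≤ b j)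
    (hMa : ∀ j, (a j : ℝ) + 1 ≤ M) (hMb : ∀ j, (b j : ℝ) + 1 ≤ M)
    (h8 : ∀ j, a j % 8 = b j % 8) (heq : ∀ j < n, a j = b j) (hne : a n ≠ b n) :
    (7 / M ^ 2) * gp a n ≤ |X a - X b| := by
  refine le_trans ?_ (sep_aux M hM n a b ha hb hMa hMb h8 heq hne)
  have hg := gp_pos a n
  have : (1 : ℝ) ≤ ((a 0 : ℝ) + 1) * (b 0 + 1) := by
    have h1 : (0 : ℝ) ≤ a 0 := by positivity
    have h2 : (0 : ℝ) ≤ b 0 := by positivity
    nlinarith
  have h3 : 0 ≤ (7 / M ^ 2) * gp a n := by positivity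
  nlinarith

end Pool.Agent.H509R3
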