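import Mathlib
import Pool.Agent.H509R3.CFVal

set_option autoImplicit false
open Filter Topology

namespace Pool.Agent.H509R3

section digits

variable (K : ℕ) (p : ℕ → ℝ)

/-- partial sums of weights -/
noncomputable def PS (i : ℕ) : ℝ := ∑ j ∈ Finset.range i, p j

lemma exists_dig (hp1 : PS p K = 1) (t : ℝ) (ht : t ∈ Set.Ico (0 : ℝ) 1) :
    ∃ i, i < K ∧ PS p i ≤ t ∧ t < PS p (i + 1) := by
  classical
  have hex : ∃ i, t < PS p i := ⟨K, by rw [hp1]; exact ht.2⟩
  have h1 := Nat.find_spec hex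
  have h2 : Nat.find hex ≠ 0 := by
    intro h
    rw [h] at h1
    simp [PS] at h1
    linarith [ht.1]
  obtain ⟨m, hm⟩ := Nat.exists_eq_succ_of_ne_zero h2
  refine ⟨m, ?_, ?_, ?_⟩
  · have : Nat.find hex ≤ K := Nat.find_min' hex (by rw [hp1]; exact ht.2)
    omega
  · have := Nat.find_min hex (m := m) (by omega)
    exact not_lt.mp this
  · have : m + 1 = Nat.find hex := by omega
    rw [this]; exact h1

open Classical in
/-- the digit of `t` -/
noncomputable def dg (t : ℝ) : ℕ :=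
  if h : ∃ i, i < K ∧ PS p i ≤ t ∧ t < PS p (i + 1) then Classical.choose h else 0

/-- the expanding map -/
noncomputable def TT (t : ℝ) : ℝ := (t - PS p (dg K p t)) / p (dg K p t)

lemma dg_spec (hp1 : PS p K = 1) (t : ℝ) (ht : t ∈ Set.Ico (0 : ℝ) 1) :
    dg K p t < K ∧ PS p (dg K p t) ≤ t ∧ t < PS p (dg K p t + 1) := by
  have h := exists_dig K p hp1 t ht
  unfold dg
  rw [dif_pos h]
  exact Classical.choose_spec h

lemma TT_mem (hp : ∀ i < K, 0 < p i) (hp1 : PS p K = 1) (t : ℝ) (ht : t ∈ Set.Ico (0 : ℝ) 1) :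
    TT K p t ∈ Set.Ico (0 : ℝ) 1 := by
  obtain ⟨h1, h2, h3⟩ := dg_spec K p hp1 t ht
  have hpos := hp _ h1
  have h4 : PS p (dg K p t + 1) = PS p (dg K p t) + p (dg K p t) := by
    unfold PS; rw [Finset.sum_range_succ]
  constructor
  · unfold TT
    apply div_nonneg _ hpos.le
    linarith
  · unfold TT
    rw [div_lt_one hpos]
    linarith

lemma TT_iter_mem (hp : ∀ i < K, 0 < p i) (hp1 : PS p K = 1) (t : ℝ) (ht : t ∈ Set.Ico (0 : ℝ) 1) (n : ℕ) :
    (TT K p)^[n] t ∈ Set.Ico (0 : ℝ) 1 := by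
  induction n with
  | zero => simpa using ht
  | succ n ih =>
    rw [Function.iterate_succ', Function.comp]
    exact TT_mem K p hp hp1 _ ih

lemma diff_iter (hp : ∀ i < K, 0 < p i) (hp1 : PS p K = 1) (t s : ℝ) (ht : t ∈ Set.Ico (0 : ℝ) 1)
    (hs : s ∈ Set.Ico (0 : ℝ) 1) (n : ℕ)
    (heq : ∀ j < n, dg K p ((TT K p)^[j] t) = dg K p ((TT K p)^[j] s)) :
    |t - s| = (∏ j ∈ Finset.range n, p (dg K p ((TT K p)^[j] t))) * |(TT K p)^[n] t - (TT K p)^[n] s| := by
  induction n with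
  | zero => simp
  | succ n ih =>
    rw [ih (fun j hj => heq j (by omega)), Finset.prod_range_succ]
    have h1 := heq n (by omega)
    have hm := TT_iter_mem K p hp hp1 t ht n
    have hm' := TT_iter_mem K p hp hp1 s hs n
    obtain ⟨h2, _, _⟩ := dg_spec K p hp1 _ hm
    have hpos := hp _ h2
    have e : (TT K p)^[n] t - (TT K p)^[n] s =
        p (dg K p ((TT K p)^[n] t)) * ((TT K p)^[n + 1] t - (TT K p)^[n + 1] s) := by
      rw [Function.iterate_succ', Function.comp_apply, Function.comp_apply]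
      simp only [TT]
      rw [← h1]
      have := hpos.ne'
      field_simp
      ring
    rw [e, abs_mul, abs_of_pos hpos]
    ring

/-- digit sequence as letters `8 i + 9` -/
noncomputable def ds (t : ℝ) (n : ℕ) : ℕ := 8 * dg K p ((TT K p)^[n] t) + 9

lemma ds_ge (t : ℝ) (j : ℕ) : 2 ≤ ds K p t j := by unfold ds; omega

lemma diff_le (hp : ∀ i < K, 0 < p i) (hp1 : PS p K = 1) (t s : ℝ) (ht : t ∈ Set.Ico (0 : ℝ) 1)
    (hs : s ∈ Set.Ico (0 : ℝ) 1) (σ : ℝ) (hσ : 0 < σ)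
    (hpσ : ∀ i < K, p i ≤ (1 / (((8 * i + 9 : ℕ) : ℝ) + 1) ^ 2) ^ σ) (n : ℕ)
    (heq : ∀ j < n, ds K p t j = ds K p s j) :
    |t - s| ≤ (gp (ds K p t) n) ^ σ := by
  have heq' : ∀ j < n, dg K p ((TT K p)^[j] t) = dg K p ((TT K p)^[j] s) := by
    intro j hj
    have := heq j hj
    unfold ds at this
    omega
  rw [diff_iter K p hp hp1 t s ht hs n heq']
  have hm := TT_iter_mem K p hp hp1 t ht n
  have hm' := TT_iter_mem K p hp hp1 s hs n
  have h1 : |(TT K p)^[n] t - (TT K p)^[n] s| ≤ 1 := by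
    rw [abs_le]
    constructor <;> linarith [hm.1, hm.2, hm'.1, hm'.2]
  have h2 : (∏ j ∈ Finset.range n, p (dg K p ((TT K p)^[j] t))) ≤ (gp (ds K p t) n) ^ σ := by
    unfold gp
    rw [← Real.finsetProd_rpow _ _ (fun i _ => by positivity)]
    apply Finset.prod_le_prod
    · intro j _
      exact (hp _ (dg_spec K p hp1 _ (TT_iter_mem K p hp hp1 t ht j)).1).le
    · intro j _
      exact hpσ _ (dg_spec K p hp1 _ (TT_iter_mem K p hp hp1 t ht j)).1
  have h3 : 0 ≤ (∏ j ∈ Finset.range n, p (dg K p ((TT K p)^[j] t))) := by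
    apply Finset.prod_nonneg
    intro j _
    exact (hp _ (dg_spec K p hp1 _ (TT_iter_mem K p hp hp1 t ht j)).1).le
  calc _ ≤ (∏ j ∈ Finset.range n, p (dg K p ((TT K p)^[j] t))) * 1 := by
        apply mul_le_mul_of_nonneg_left h1 h3
    _ ≤ _ := by rw [mul_one]; exact h2

lemma gp_le (a : ℕ → ℕ) (ha : ∀ j, 2 ≤ a j) (n : ℕ) : gp a n ≤ (1 / 9 : ℝ) ^ n := by
  unfold gp
  calc ∏ j ∈ Finset.range n, (1 / ((a j : ℝ) + 1) ^ 2) ≤ ∏ j ∈ Finset.range n, (1 / 9 : ℝ) := by
        apply Finset.prod_le_prod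
        · intro j _; positivity
        · intro j _
          have h4 : (2 : ℝ) ≤ a j := by exact_mod_cast ha j
          apply one_div_le_one_div_of_le (by norm_num)
          nlinarith
    _ = (1 / 9 : ℝ) ^ n := by simp

/-- the coding map is inverse Holder -/
lemma holder_bound (hp : ∀ i < K, 0 < p i) (hp1 : PS p K = 1) (t s : ℝ) (ht : t ∈ Set.Ico (0 : ℝ) 1)
    (hs : s ∈ Set.Ico (0 : ℝ) 1) (σ : ℝ) (hσ : 0 < σ)
    (hpσ : ∀ i < K, p i ≤ (1 / (((8 * i + 9 : ℕ) : ℝ) + 1) ^ 2) ^ σ) :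
    |t - s| ≤ (((8 * K + 10 : ℕ) : ℝ) ^ 2) ^ σ * |X (ds K p t) - X (ds K p s)| ^ σ := by
  classical
  by_cases hts : t = s
  · subst hts
    simp
    positivity
  · have hex : ∃ n, ds K p t n ≠ ds K p s n := by
      by_contra hcon
      push Not at hcon
      have h1 : ∀ n : ℕ, |t - s| ≤ ((1 / 9 : ℝ) ^ σ) ^ n := by
        intro n
        have h2 := diff_le K p hp hp1 t s ht hs σ hσ hpσ n (fun j _ => hcon j)
        have h3 := gp_le (ds K p t) (ds_ge K p t) n
        refine h2.trans ?_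
        have h4 : (gp (ds K p t) n) ^ σ ≤ ((1 / 9 : ℝ) ^ n) ^ σ :=
          Real.rpow_le_rpow (gp_pos _ _).le h3 hσ.le
        refine h4.trans (le_of_eq ?_)
        rw [← Real.rpow_natCast, ← Real.rpow_natCast, ← Real.rpow_mul (by norm_num), ← Real.rpow_mul (by norm_num),
          mul_comm]
      have h5 : Tendsto (fun n : ℕ => ((1 / 9 : ℝ) ^ σ) ^ n) atTop (𝓝 0) := by
        apply tendsto_pow_atTop_nhds_zero_of_lt_one (by positivity)
        exact Real.rpow_lt_one (by norm_num) (by norm_num) hσ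
      have h6 : |t - s| ≤ 0 := ge_of_tendsto' h5 h1
      have h7 : t - s = 0 := abs_eq_zero.mp (le_antisymm h6 (abs_nonneg _))
      exact hts (by linarith)
    set n := Nat.find hex with hn
    have hne := Nat.find_spec hex
    have heq : ∀ j < n, ds K p t j = ds K p s j := by
      intro j hj
      have := Nat.find_min hex hj
      push Not at this
      exact this
    have h1 := diff_le K p hp hp1 t s ht hs σ hσ hpσ n heq
    have hbd : ∀ (r : ℝ) (hr : r ∈ Set.Ico (0 : ℝ) 1) (j : ℕ), ((ds K p r j : ℕ) : ℝ) + 1 ≤ ((8 * K + 10 : ℕ) : ℝ) := by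
      intro r hr j
      have := (dg_spec K p hp1 _ (TT_iter_mem K p hp hp1 r hr j)).1
      have h2 : ds K p r j + 1 ≤ 8 * K + 10 := by unfold ds; omega
      exact_mod_cast h2
    have h2 := sep (((8 * K + 10 : ℕ) : ℝ)) (by positivity) n (ds K p t) (ds K p s) (ds_ge K p t) (ds_ge K p s)
      (hbd t ht) (hbd s hs) (fun j => by unfold ds; omega) heq hne
    have hg := gp_pos (ds K p t) n
    have h3 : gp (ds K p t) n ≤ (((8 * K + 10 : ℕ) : ℝ) ^ 2) * |X (ds K p t) - X (ds K p s)| := by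
      have hM : (0 : ℝ) < (((8 * K + 10 : ℕ) : ℝ) ^ 2) := by positivity
      rw [div_mul_eq_mul_div, div_le_iff₀ hM] at h2
      nlinarith
    calc |t - s| ≤ (gp (ds K p t) n) ^ σ := h1
      _ ≤ ((((8 * K + 10 : ℕ) : ℝ) ^ 2) * |X (ds K p t) - X (ds K p s)|) ^ σ :=
          Real.rpow_le_rpow hg.le h3 hσ.le
      _ = _ := by rw [Real.mul_rpow (by positivity) (abs_nonneg _)]

theorem dim_ge (hp : ∀ i < K, 0 < p i) (hp1 : PS p K = 1) (σ : NNReal) (hσ : 0 < σ)
    (hpσ : ∀ i < K, p i ≤ (1 / (((8 * i + 9 : ℕ) : ℝ) + 1) ^ 2) ^ (σ : ℝ)) :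
    (σ : ENNReal) ≤ dimH ((fun t => X (ds K p t)) '' (Set.Ico (0 : ℝ) 1)) := by
  classical
  set G : ℝ → ℝ := fun t => X (ds K p t) with hG
  set F : ℝ → ℝ := Function.invFunOn G (Set.Ico (0 : ℝ) 1) with hF
  have hσ' : (0 : ℝ) < σ := hσ
  set C : NNReal := (((8 * K + 10 : ℕ) : NNReal) ^ 2) ^ (σ : ℝ) with hC
  have hb := fun t s ht hs => holder_bound K p hp hp1 t s ht hs σ hσ' hpσ
  have hinj : Set.InjOn G (Set.Ico (0 : ℝ) 1) := by
    intro t ht s hs h
    have h1 := hb t s ht hs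
    have h2 : X (ds K p t) - X (ds K p s) = 0 := by
      have : G t = G s := h
      simp only [hG] at this
      linarith
    rw [h2, abs_zero, Real.zero_rpow hσ'.ne', mul_zero] at h1
    have h7 : t - s = 0 := abs_eq_zero.mp (le_antisymm h1 (abs_nonneg _))
    linarith
  have hFG : ∀ t ∈ Set.Ico (0 : ℝ) 1, F (G t) = t := fun t ht => hinj.leftInvOn_invFunOn ht
  have hhol : HolderOnWith C σ F (G '' Set.Ico (0 : ℝ) 1) := by
    rintro _ ⟨t, ht, rfl⟩ _ ⟨s, hs, rfl⟩
    rw [hFG t ht, hFG s hs]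
    have h1 := hb t s ht hs
    rw [edist_dist, edist_dist, Real.dist_eq, Real.dist_eq]
    have h2 : ENNReal.ofReal |t - s| ≤ ENNReal.ofReal ((((8 * K + 10 : ℕ) : ℝ) ^ 2) ^ (σ : ℝ) * |G t - G s| ^ (σ : ℝ)) :=
      ENNReal.ofReal_le_ofReal h1
    refine h2.trans (le_of_eq ?_)
    rw [ENNReal.ofReal_mul (by positivity), ENNReal.ofReal_rpow_of_nonneg (abs_nonneg _) hσ'.le]
    congr 1
    rw [hC]
    rw [ENNReal.ofReal]
    congr 1
    ext
    push_cast
    rw [Real.coe_toNNReal _ (by positivity)]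
  have himg : F '' (G '' Set.Ico (0 : ℝ) 1) = Set.Ico (0 : ℝ) 1 := by
    rw [Set.image_image]
    ext t
    constructor
    · rintro ⟨s, hs, rfl⟩
      change F (G s) ∈ Set.Ico (0 : ℝ) 1
      rw [hFG s hs]; exact hs
    · intro ht
      exact ⟨t, ht, hFG t ht⟩
  have h1 := hhol.dimH_image_le hσ
  rw [himg] at h1
  have h2 : dimH (Set.Ico (0 : ℝ) 1) = 1 := by
    have := Real.dimH_of_nonempty_interior (s := Set.Ico (0 : ℝ) 1) (by
      rw [interior_Ico]
      exact ⟨1 / 2, by norm_num, by norm_num⟩)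
    simpa using this
  rw [h2] at h1
  rw [ENNReal.le_div_iff_mul_le (Or.inl (by exact_mod_cast hσ.ne')) (Or.inl ENNReal.coe_ne_top), one_mul] at h1
  exact h1

end digits

lemma exists_K : ∃ K : ℕ, 2 ≤ K ∧ 1 < ∑ i ∈ Finset.range K, (1 / (((8 * i + 9 : ℕ) : ℝ) + 1)) := by
  have h := Real.tendsto_sum_range_one_div_nat_succ_atTop
  have h1 := (tendsto_atTop.mp h) 11
  obtain ⟨K, hK⟩ := (h1.and (eventually_ge_atTop 2)).exists
  refine ⟨K, hK.2, ?_⟩
  have h2 : ∀ i ∈ Finset.range K, (1 / 10 : ℝ) * (1 / ((i : ℝ) + 1)) ≤ (1 / (((8 * i + 9 : ℕ) : ℝ) + 1)) := by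
    intro i _
    rw [one_div_mul_one_div]
    apply one_div_le_one_div_of_le (by positivity)
    push_cast
    nlinarith [(Nat.cast_nonneg i : (0 : ℝ) ≤ i)]
  have h3 := Finset.sum_le_sum h2
  rw [← Finset.mul_sum] at h3
  have h4 := hK.1
  linarith

/-- for suitable `K`, the continued fraction Cantor set with letters `9, 17, ..., 8K+1` has
Hausdorff dimension larger than one half -/
theorem exists_dim : ∃ K : ℕ, 2 ≤ K ∧ (1 / 2 : ENNReal) <
    dimH {x : ℝ | ∃ a : ℕ → ℕ, (∀ j, a j ∈ (Finset.range K).image (fun i => 8 * i + 9)) ∧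
          Tendsto (fun n : ℕ =>
            ((List.map (fun j : ℕ => (!![(a j : ℝ), 1; 1, 0] : Matrix (Fin 2) (Fin 2) ℝ))
                (List.range (n + 1))).prod 0 0) /
            ((List.map (fun j : ℕ => (!![(a j : ℝ), 1; 1, 0] : Matrix (Fin 2) (Fin 2) ℝ))
                (List.range (n + 1))).prod 1 0)) atTop (𝓝 x)} := by
  obtain ⟨K, hK2, hK⟩ := exists_K
  refine ⟨K, hK2, ?_⟩
  set Z : ℝ := ∑ i ∈ Finset.range K, (1 / (((8 * i + 9 : ℕ) : ℝ) + 1)) with hZ
  have hZpos : 0 < Z := by linarith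
  set p : ℕ → ℝ := fun i => (1 / (((8 * i + 9 : ℕ) : ℝ) + 1)) / Z with hp
  have hppos : ∀ i < K, 0 < p i := by
    intro i _
    simp only [hp]; positivity
  have hp1 : PS p K = 1 := by
    simp only [PS, hp]
    rw [← Finset.sum_div, ← hZ, div_self hZpos.ne']
  -- exponent
  set B : ℝ := ((8 * K + 10 : ℕ) : ℝ) with hB
  have hB1 : 1 < B := by rw [hB]; push_cast; nlinarith [(Nat.cast_nonneg K : (0 : ℝ) ≤ K)]
  have hlogB : 0 < Real.log B := Real.log_pos hB1
  have hlogZ : 0 < Real.log Z := Real.log_pos hK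
  set σ' : ℝ := 1 / 2 + Real.log Z / (2 * Real.log B) with hσ'
  have hσ'pos : 1 / 2 < σ' := by
    rw [hσ']
    have : 0 < Real.log Z / (2 * Real.log B) := by positivity
    linarith
  set σ : NNReal := ⟨σ', by linarith⟩ with hσ
  have hσval : (σ : ℝ) = σ' := rfl
  have hσpos : 0 < σ := by
    rw [← NNReal.coe_pos, hσval]; linarith
  have hpσ : ∀ i < K, p i ≤ (1 / (((8 * i + 9 : ℕ) : ℝ) + 1) ^ 2) ^ (σ : ℝ) := by
    intro i hi
    rw [hσval]
    set y : ℝ := ((8 * i + 9 : ℕ) : ℝ) + 1 with hy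
    have hy0 : 0 < y := by positivity
    have hy1 : 1 < y := by rw [hy]; push_cast; nlinarith [(Nat.cast_nonneg i : (0 : ℝ) ≤ i)]
    have hyB : y ≤ B := by
      rw [hy, hB]
      have : 8 * i + 9 + 1 ≤ 8 * K + 10 := by omega
      exact_mod_cast this
    have hpi : p i = (1 / y) / Z := rfl
    rw [hpi]
    rw [← Real.log_le_log_iff (by positivity) (by positivity)]
    rw [Real.log_div (by positivity) hZpos.ne', Real.log_rpow (by positivity), one_div, one_div, Real.log_inv,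
      Real.log_inv, Real.log_pow]
    have hly : 0 < Real.log y := Real.log_pos hy1
    have hlyB : Real.log y ≤ Real.log B := Real.log_le_log hy0 hyB
    have : σ' * (2 * Real.log y) ≤ Real.log y + Real.log Z := by
      rw [hσ']
      have e : (1 / 2 + Real.log Z / (2 * Real.log B)) * (2 * Real.log y) =
          Real.log y + Real.log Z * (Real.log y / Real.log B) := by
        field_simp
      rw [e]
      have : Real.log y / Real.log B ≤ 1 := by
        rw [div_le_one hlogB]; exact hlyB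
      nlinarith
    push_cast
    linarith
  have h1 := dim_ge K p hppos hp1 σ hσpos hpσ
  have h2 : (1 / 2 : ENNReal) < (σ : ENNReal) := by
    have e : (1 / 2 : ENNReal) = ((1 / 2 : NNReal) : ENNReal) := by
      rw [ENNReal.coe_div (by norm_num)]
      simp
    rw [e, ENNReal.coe_lt_coe, ← NNReal.coe_lt_coe, hσval]
    push_cast
    exact hσ'pos
  refine lt_of_lt_of_le h2 (h1.trans (dimH_mono ?_))
  rintro _ ⟨t, ht, rfl⟩
  refine ⟨ds K p t, ?_, ?_⟩
  · intro j
    rw [Finset.mem_image]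
    exact ⟨_, Finset.mem_range.mpr (dg_spec K p hp1 _ (TT_iter_mem K p hppos hp1 t ht j)).1, rfl⟩
  · have h3 := X_tendsto (ds K p t) (ds_ge K p t)
    refine h3.congr ?_
    intro n
    exact (cv_eq (ds K p t) (ds_ge K p t) n).symm

end Pool.Agent.H509R3
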