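import Mathlib

set_option autoImplicit false

namespace Pool.Agent.H509R3

/-- letter matrix over `ZMod n` -/
def fm (n : ℕ) (b : ℕ) : Matrix (Fin 2) (Fin 2) (ZMod n) := !![(b : ZMod n), 1; 1, 0]

lemma fm_unit (n b : ℕ) : IsUnit (fm n b) := by
  rw [Matrix.isUnit_iff_isUnit_det]
  simp [fm, Matrix.det_fin_two_of]

/-- some even positive power is one -/
lemma exists_even_pow (n b : ℕ) (hn : 1 ≤ n) : ∃ N : ℕ, (fm n b) ^ (2 * N + 1) * fm n b = 1 := by
  have : NeZero n := ⟨by omega⟩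
  obtain ⟨u, hu⟩ := fm_unit n b
  have hpos : 0 < orderOf u := orderOf_pos u
  refine ⟨orderOf u - 1, ?_⟩
  have h1 : u ^ (2 * (orderOf u - 1) + 1) * u = 1 := by
    rw [← pow_succ]
    have : 2 * (orderOf u - 1) + 1 + 1 = orderOf u * 2 := by omega
    rw [this, pow_mul, pow_orderOf_eq_one, one_pow]
  rw [← hu]
  have h2 := congrArg (Units.val) h1
  rw [Units.val_mul, Units.val_pow_eq_pow_val, Units.val_one] at h2
  exact h2

lemma fm_shift (n b : ℕ) : fm n (b + 8) = !![(1 : ZMod n), 8; 0, 1] * fm n b := by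
  ext i j
  fin_cases i <;> fin_cases j <;> simp [fm, Matrix.mul_apply, Fin.sum_univ_two]

/-- virtual letters: `9 + 8 j` is realised by an odd length word in `9, 17` -/
lemma virt (n : ℕ) (hn : 1 ≤ n) (j : ℕ) :
    ∃ L : List ℕ, Odd L.length ∧ (∀ b ∈ L, b = 9 ∨ b = 17) ∧ (L.map (fm n)).prod = fm n (9 + 8 * j) := by
  induction j with
  | zero => exact ⟨[9], by simp, by simp, by simp⟩
  | succ j ih =>
    obtain ⟨L, hodd, hmem, hprod⟩ := ih
    obtain ⟨N, hN⟩ := exists_even_pow n 9 hn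
    refine ⟨17 :: (List.replicate (2 * N + 1) 9 ++ L), ?_, ?_, ?_⟩
    · rw [List.length_cons, List.length_append, List.length_replicate]
      rw [Nat.odd_iff] at hodd ⊢
      omega
    · intro b hb
      rw [List.mem_cons, List.mem_append] at hb
      rcases hb with h | h | h
      · exact Or.inr h
      · exact Or.inl (List.eq_of_mem_replicate h)
      · exact hmem b h
    · rw [List.map_cons, List.prod_cons, List.map_append, List.prod_append, List.map_replicate,
        List.prod_replicate, hprod]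
      have h1 : fm n 17 = !![(1 : ZMod n), 8; 0, 1] * fm n 9 := fm_shift n 9
      have h2 : fm n 9 * fm n 9 ^ (2 * N + 1) = 1 := by rw [← pow_succ', pow_succ, hN]
      have h3 : 9 + 8 * (j + 1) = (9 + 8 * j) + 8 := by ring
      rw [h3, fm_shift n (9 + 8 * j), h1, ← mul_assoc, mul_assoc (!![(1 : ZMod n), 8; 0, 1]), h2, mul_one]

lemma exists_uv (n k : ℕ) (hn : 1 ≤ n) : ∃ i j : ℕ,
    (((9 + 8 * i : ℕ) : ZMod n) + 2) * (((9 + 8 * j : ℕ) : ZMod n) + 2) = ((5 : ZMod n) ^ k) ^ 2 := by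
  -- a prime congruent to 3 mod 8 larger than everything
  have h3 : IsUnit ((3 : ℕ) : ZMod 8) := by
    rw [ZMod.isUnit_iff_coprime]; decide
  obtain ⟨u, hu, hup, hu8⟩ := Nat.forall_exists_prime_gt_and_eq_mod h3 (8 * n + 11)
  have hu8' : u % 8 = 3 := by
    have := (ZMod.natCast_eq_natCast_iff' u 3 8).mp (by exact_mod_cast hu8)
    simpa using this
  have hcop : Nat.Coprime u (8 * n) := by
    rw [hup.coprime_iff_not_dvd]
    intro h
    have := Nat.le_of_dvd (by omega) h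
    omega
  have : NeZero (8 * n) := ⟨by omega⟩
  set w : ZMod (8 * n) := (u : ZMod (8 * n))⁻¹ * ((5 : ZMod (8 * n)) ^ k) ^ 2 with hw
  have huw : (u : ZMod (8 * n)) * w = ((5 : ZMod (8 * n)) ^ k) ^ 2 := by
    rw [hw, ← mul_assoc, ZMod.coe_mul_inv_eq_one u hcop, one_mul]
  set v : ℕ := w.val + 8 * n * 11 with hv
  have hvw : (v : ZMod (8 * n)) = w := by
    rw [hv, Nat.cast_add, ZMod.natCast_zmod_val, Nat.cast_mul, ZMod.natCast_self, zero_mul, add_zero]
  have huv : ((u * v : ℕ) : ZMod (8 * n)) = (((5 ^ k) ^ 2 : ℕ) : ZMod (8 * n)) := by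
    push_cast
    rw [hvw]
    exact huw
  have huv' : u * v ≡ (5 ^ k) ^ 2 [MOD (8 * n)] := (ZMod.natCast_eq_natCast_iff _ _ _).mp huv
  have h8 : u * v ≡ (5 ^ k) ^ 2 [MOD 8] := huv'.of_mul_right n
  have hn' : u * v ≡ (5 ^ k) ^ 2 [MOD n] := huv'.of_mul_left 8
  have h25 : (5 ^ k) ^ 2 % 8 = 1 := by
    rw [← pow_mul, mul_comm, pow_mul]
    have : (5 ^ 2) ^ k ≡ 1 ^ k [MOD 8] := Nat.ModEq.pow k (by decide)
    rw [one_pow] at this
    exact this
  have hv8 : v % 8 = 3 := by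
    have h1 : (u * v) % 8 = 1 := by rw [← h25]; exact h8
    rw [Nat.mul_mod, hu8'] at h1
    have h2 : v % 8 < 8 := Nat.mod_lt _ (by norm_num)
    interval_cases h : v % 8 <;> simp_all
  refine ⟨(u - 11) / 8, (v - 11) / 8, ?_⟩
  have e1 : 9 + 8 * ((u - 11) / 8) + 2 = u := by omega
  have e2 : 9 + 8 * ((v - 11) / 8) + 2 = v := by omega
  have e3 : ((9 + 8 * ((u - 11) / 8) : ℕ) : ZMod n) + 2 = (u : ZMod n) := by
    conv_rhs => rw [← e1]
    push_cast; ring
  have e4 : ((9 + 8 * ((v - 11) / 8) : ℕ) : ZMod n) + 2 = (v : ZMod n) := by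
    conv_rhs => rw [← e2]
    push_cast; ring
  rw [e3, e4]
  have := (ZMod.natCast_eq_natCast_iff _ _ _).mpr hn'
  push_cast at this
  exact this

lemma trace_four (n : ℕ) (hn : 1 ≤ n) (a b : ℕ) :
    Matrix.trace (fm n a * (fm n (9 + 8 * (n - 1)) * (fm n b * fm n (9 + 8 * (n - 1))))) =
      ((a : ZMod n) + 2) * ((b : ZMod n) + 2) - 2 := by
  have h1 : ((9 + 8 * (n - 1) : ℕ) : ZMod n) = 1 := by
    have : 9 + 8 * (n - 1) = 8 * n + 1 := by omega
    rw [this]; push_cast; simp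
  simp only [fm, h1]
  rw [Matrix.trace_fin_two]
  simp [Matrix.mul_apply, Fin.sum_univ_two]
  ring

/-- admissibility of `25 ^ k - 2` -/
theorem admissible (k : ℕ) (q : ℤ) (hq : 1 ≤ q) : ∃ l : List ℕ, l ≠ [] ∧ Even l.length ∧
    (∀ b ∈ l, b = 9 ∨ b = 17) ∧
    Matrix.trace ((List.map (fun b : ℕ => (!![(b : ℤ), 1; 1, 0] : Matrix (Fin 2) (Fin 2) ℤ)) l).prod)
      ≡ (5 ^ k) ^ 2 - 2 [ZMOD q] := by
  obtain ⟨n, rfl⟩ : ∃ n : ℕ, q = n := ⟨q.toNat, by omega⟩
  have hn : 1 ≤ n := by exact_mod_cast hq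
  obtain ⟨i, j, hij⟩ := exists_uv n k hn
  obtain ⟨L1, o1, m1, p1⟩ := virt n hn i
  obtain ⟨L2, o2, m2, p2⟩ := virt n hn j
  obtain ⟨L0, o0, m0, p0⟩ := virt n hn (n - 1)
  refine ⟨L1 ++ (L0 ++ (L2 ++ L0)), ?_, ?_, ?_, ?_⟩
  · intro h
    rw [List.append_eq_nil_iff] at h
    rw [h.1] at o1
    simp at o1
  · simp only [List.length_append]
    rw [Nat.odd_iff] at o0 o1 o2
    rw [Nat.even_iff]
    omega
  · intro b hb
    simp only [List.mem_append] at hb
    rcases hb with h | h | h | h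
    · exact m1 b h
    · exact m0 b h
    · exact m2 b h
    · exact m0 b h
  · rw [← ZMod.intCast_eq_intCast_iff]
    set l := L1 ++ (L0 ++ (L2 ++ L0)) with hl
    have hmap : ((Matrix.trace ((List.map (fun b : ℕ => (!![(b : ℤ), 1; 1, 0] : Matrix (Fin 2) (Fin 2) ℤ)) l).prod) : ℤ) : ZMod n)
        = Matrix.trace ((List.map (fm n) l).prod) := by
      have h1 : (Int.castRingHom (ZMod n)).mapMatrix ((List.map (fun b : ℕ => (!![(b : ℤ), 1; 1, 0] : Matrix (Fin 2) (Fin 2) ℤ)) l).prod)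
          = (List.map (fm n) l).prod := by
        rw [map_list_prod, List.map_map]
        congr 1
        apply List.map_congr_left
        intro b _
        ext i j
        fin_cases i <;> fin_cases j <;> simp [fm]
      rw [← h1]
      simp [Matrix.trace_fin_two]
    rw [hmap, hl, List.map_append, List.map_append, List.map_append, List.prod_append, List.prod_append,
      List.prod_append, p1, p0, p2, trace_four n hn, hij]
    push_cast
    ring

end Pool.Agent.H509R3
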