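import Mathlib

set_option autoImplicit false
open NumberTheorySymbols

namespace Pool.Agent.H509R3

/-- one step of the continued fraction recursion on a column -/
def stp (a : ℕ) (v : ℕ × ℕ) : ℕ × ℕ := (a * v.1 + v.2, v.1)

def colA (l : List ℕ) : ℕ × ℕ := l.foldr stp (1, 0)
def colB (l : List ℕ) : ℕ × ℕ := l.foldr stp (0, 1)

lemma prod_eq (l : List ℕ) :
    (List.map (fun b : ℕ => (!![(b : ℤ), 1; 1, 0] : Matrix (Fin 2) (Fin 2) ℤ)) l).prod =
      !![((colA l).1 : ℤ), ((colB l).1 : ℤ); ((colA l).2 : ℤ), ((colB l).2 : ℤ)] := by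
  induction l with
  | nil =>
    simp [colA, colB]
    exact Matrix.one_fin_two
  | cons a l ih =>
    rw [List.map_cons, List.prod_cons, ih]
    simp only [colA, colB, List.foldr_cons, stp]
    ext i j
    fin_cases i <;> fin_cases j <;> simp [Matrix.mul_apply, Fin.sum_univ_two]

/-- the tracked symbol -/
def sy (x y : ℕ) : ℤ := if y % 2 = 1 then J((x : ℤ) | y) else J((y : ℤ) | x)

lemma L1 (a x y : ℕ) (hx : x % 2 = 1) (hy : y % 2 = 0) : sy (a * x + y) x = sy x y := by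
  have hy' : ¬ (y % 2 = 1) := by omega
  simp only [sy, hx, hy', if_true, if_false]
  apply jacobiSym.mod_left'
  push_cast
  rw [Int.add_emod, Int.mul_emod_left]
  simp

lemma L2 (a x y : ℕ) (hx : x % 4 = 1) (hy : y % 2 = 1) : sy (a * x + y) x = sy x y := by
  have hx' : x % 2 = 1 := by omega
  simp only [sy, hx', hy, if_true]
  have h1 : J(((a * x + y : ℕ) : ℤ) | x) = J((y : ℤ) | x) := by
    apply jacobiSym.mod_left'
    push_cast
    rw [Int.add_emod, Int.mul_emod_left]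
    simp
  rw [h1]
  exact (jacobiSym.quadratic_reciprocity_one_mod_four hx (Nat.odd_iff.mpr hy)).symm

lemma L3 (a x y : ℕ) (hx : x % 8 = 0) (hy : y % 2 = 1) : sy (a * x + y) x = sy x y := by
  have hx' : ¬ (x % 2 = 1) := by omega
  simp only [sy, hx', hy, if_true, if_false]
  obtain ⟨z, rfl⟩ : ∃ z, x = 4 * z := ⟨x / 4, by omega⟩
  have hy1 : Odd y := Nat.odd_iff.mpr hy
  have hb : Odd (a * (4 * z) + y) := by
    rw [Nat.odd_iff]
    have : a * (4 * z) = 2 * (a * (2 * z)) := by ring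
    omega
  have key : ∀ b : ℕ, Odd b → J(((4 * z : ℕ) : ℤ) | b) = J((z : ℤ) | b) := by
    intro b hb
    have : ((4 * z : ℕ) : ℤ) = (2 : ℤ) ^ 2 * (z : ℤ) := by push_cast; ring
    rw [this, jacobiSym.mul_left, jacobiSym.pow_left]
    have h2 : J(2 | b) ^ 2 = 1 := by
      apply jacobiSym.sq_one
      have : Nat.Coprime 2 b := (Nat.coprime_two_left).mpr hb
      simpa [Int.gcd] using this
    rw [h2, one_mul]
  rw [key _ hb, key _ hy1]
  rw [jacobiSym.mod_right' z hb, jacobiSym.mod_right' z hy1]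
  congr 1
  have : a * (4 * z) + y = y + (4 * z) * a := by ring
  rw [this, Nat.add_mul_mod_self_left]

lemma chi_eq (b r : ℕ) (h : b % 8 = r) : ZMod.χ₈ (b : ZMod 8) = ZMod.χ₈ (r : ZMod 8) := by
  have : (b : ZMod 8) = (r : ZMod 8) := by
    rw [← h]
    exact (ZMod.natCast_mod b 8).symm
  rw [this]

lemma L4 (a x y : ℕ) (ha : a % 8 = 1) (hx : x % 8 = 2) (hy : y % 8 = 1 ∨ y % 8 = 5) :
    sy (a * x + y) x = - sy x y := by
  have hx' : ¬ (x % 2 = 1) := by omega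
  have hy2 : y % 2 = 1 := by omega
  simp only [sy, hx', hy2, if_true, if_false]
  obtain ⟨z, rfl⟩ : ∃ z, x = 2 * z := ⟨x / 2, by omega⟩
  have hz : z % 4 = 1 := by omega
  have hy1 : Odd y := Nat.odd_iff.mpr hy2
  have hax : (a * (2 * z)) % 8 = 2 := by
    rw [Nat.mul_mod, ha, hx]
  have hb : Odd (a * (2 * z) + y) := by
    rw [Nat.odd_iff]
    omega
  have key : ∀ b : ℕ, Odd b → J(((2 * z : ℕ) : ℤ) | b) = ZMod.χ₈ (b : ZMod 8) * J((b : ℤ) | z) := by
    intro b hb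
    push_cast
    rw [jacobiSym.mul_left, jacobiSym.at_two hb,
      jacobiSym.quadratic_reciprocity_one_mod_four hz hb]
  rw [key _ hb, key _ hy1]
  have h1 : J(((a * (2 * z) + y : ℕ) : ℤ) | z) = J((y : ℤ) | z) := by
    apply jacobiSym.mod_left'
    push_cast
    have : (a : ℤ) * (2 * z) + y = y + z * (2 * a) := by ring
    rw [this, Int.add_mul_emod_self_left]
  rw [h1]
  rcases hy with h | h
  · rw [chi_eq y 1 h, chi_eq (a * (2 * z) + y) 3 (by omega)]
    have e1 : ZMod.χ₈ ((1 : ℕ) : ZMod 8) = 1 := by decide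
    have e2 : ZMod.χ₈ ((3 : ℕ) : ZMod 8) = -1 := by decide
    rw [e1, e2]; ring
  · rw [chi_eq y 5 h, chi_eq (a * (2 * z) + y) 7 (by omega)]
    have e1 : ZMod.χ₈ ((5 : ℕ) : ZMod 8) = -1 := by decide
    have e2 : ZMod.χ₈ ((7 : ℕ) : ZMod 8) = 1 := by decide
    rw [e1, e2]; ring

/-- the invariant of the state machine after `k` letters (mod 12), all letters `1` mod `8` -/
def Inv (k x y u v : ℕ) : Prop :=
  (k = 0 ∧ x % 8 = 1 ∧ y % 8 = 0 ∧ u % 8 = 0 ∧ v % 8 = 1 ∧ sy x y = 1) ∨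
  (k = 1 ∧ x % 8 = 1 ∧ y % 8 = 1 ∧ u % 8 = 1 ∧ v % 8 = 0 ∧ sy x y = 1) ∨
  (k = 2 ∧ x % 8 = 2 ∧ y % 8 = 1 ∧ u % 8 = 1 ∧ v % 8 = 1 ∧ sy x y = 1) ∨
  (k = 3 ∧ x % 8 = 3 ∧ y % 8 = 2 ∧ u % 8 = 2 ∧ v % 8 = 1 ∧ sy x y = -1) ∨
  (k = 4 ∧ x % 8 = 5 ∧ y % 8 = 3 ∧ u % 8 = 3 ∧ v % 8 = 2 ∧ sy x y = -1) ∨
  (k = 5 ∧ x % 8 = 0 ∧ y % 8 = 5 ∧ u % 8 = 5 ∧ v % 8 = 3 ∧ sy x y = -1) ∨
  (k = 6 ∧ x % 8 = 5 ∧ y % 8 = 0 ∧ u % 8 = 0 ∧ v % 8 = 5 ∧ sy x y = -1) ∨
  (k = 7 ∧ x % 8 = 5 ∧ y % 8 = 5 ∧ u % 8 = 5 ∧ v % 8 = 0 ∧ sy x y = -1) ∨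
  (k = 8 ∧ x % 8 = 2 ∧ y % 8 = 5 ∧ u % 8 = 5 ∧ v % 8 = 5 ∧ sy x y = -1) ∨
  (k = 9 ∧ x % 8 = 7 ∧ y % 8 = 2 ∧ u % 8 = 2 ∧ v % 8 = 5 ∧ sy x y = 1) ∨
  (k = 10 ∧ x % 8 = 1 ∧ y % 8 = 7 ∧ u % 8 = 7 ∧ v % 8 = 2 ∧ sy x y = 1) ∨
  (k = 11 ∧ x % 8 = 0 ∧ y % 8 = 1 ∧ u % 8 = 1 ∧ v % 8 = 7 ∧ sy x y = 1)

lemma step_mod (a x y r s : ℕ) (ha : a % 8 = 1) (hx : x % 8 = r) (hy : y % 8 = s) :
    (a * x + y) % 8 = (r + s) % 8 := by
  rw [Nat.add_mod, Nat.mul_mod, ha, hx, hy]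
  omega

lemma Inv_step (k a x y u v : ℕ) (ha : a % 8 = 1) (h : Inv k x y u v) :
    Inv ((k + 1) % 12) (a * x + y) x (a * u + v) u := by
  rcases h with ⟨rfl, hx, hy, hu, hv, hs⟩ | ⟨rfl, hx, hy, hu, hv, hs⟩ | ⟨rfl, hx, hy, hu, hv, hs⟩ |
    ⟨rfl, hx, hy, hu, hv, hs⟩ | ⟨rfl, hx, hy, hu, hv, hs⟩ | ⟨rfl, hx, hy, hu, hv, hs⟩ |
    ⟨rfl, hx, hy, hu, hv, hs⟩ | ⟨rfl, hx, hy, hu, hv, hs⟩ | ⟨rfl, hx, hy, hu, hv, hs⟩ |
    ⟨rfl, hx, hy, hu, hv, hs⟩ | ⟨rfl, hx, hy, hu, hv, hs⟩ | ⟨rfl, hx, hy, hu, hv, hs⟩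
  · have := L1 a x y (by omega) (by omega)
    have e1 := step_mod a x y _ _ ha hx hy
    have e2 := step_mod a u v _ _ ha hu hv
    simp only [Inv]; rw [this, hs, e1, e2]; simp [hx, hu]
  · have := L2 a x y (by omega) (by omega)
    have e1 := step_mod a x y _ _ ha hx hy
    have e2 := step_mod a u v _ _ ha hu hv
    simp only [Inv]; rw [this, hs, e1, e2]; simp [hx, hu]
  · have := L4 a x y ha (by omega) (by omega)
    have e1 := step_mod a x y _ _ ha hx hy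
    have e2 := step_mod a u v _ _ ha hu hv
    simp only [Inv]; rw [this, hs, e1, e2]; simp [hx, hu]
  · have := L1 a x y (by omega) (by omega)
    have e1 := step_mod a x y _ _ ha hx hy
    have e2 := step_mod a u v _ _ ha hu hv
    simp only [Inv]; rw [this, hs, e1, e2]; simp [hx, hu]
  · have := L2 a x y (by omega) (by omega)
    have e1 := step_mod a x y _ _ ha hx hy
    have e2 := step_mod a u v _ _ ha hu hv
    simp only [Inv]; rw [this, hs, e1, e2]; simp [hx, hu]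
  · have := L3 a x y (by omega) (by omega)
    have e1 := step_mod a x y _ _ ha hx hy
    have e2 := step_mod a u v _ _ ha hu hv
    simp only [Inv]; rw [this, hs, e1, e2]; simp [hx, hu]
  · have := L1 a x y (by omega) (by omega)
    have e1 := step_mod a x y _ _ ha hx hy
    have e2 := step_mod a u v _ _ ha hu hv
    simp only [Inv]; rw [this, hs, e1, e2]; simp [hx, hu]
  · have := L2 a x y (by omega) (by omega)
    have e1 := step_mod a x y _ _ ha hx hy
    have e2 := step_mod a u v _ _ ha hu hv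
    simp only [Inv]; rw [this, hs, e1, e2]; simp [hx, hu]
  · have := L4 a x y ha (by omega) (by omega)
    have e1 := step_mod a x y _ _ ha hx hy
    have e2 := step_mod a u v _ _ ha hu hv
    simp only [Inv]; rw [this, hs, e1, e2]; simp [hx, hu]
  · have := L1 a x y (by omega) (by omega)
    have e1 := step_mod a x y _ _ ha hx hy
    have e2 := step_mod a u v _ _ ha hu hv
    simp only [Inv]; rw [this, hs, e1, e2]; simp [hx, hu]
  · have := L2 a x y (by omega) (by omega)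
    have e1 := step_mod a x y _ _ ha hx hy
    have e2 := step_mod a u v _ _ ha hu hv
    simp only [Inv]; rw [this, hs, e1, e2]; simp [hx, hu]
  · have := L3 a x y (by omega) (by omega)
    have e1 := step_mod a x y _ _ ha hx hy
    have e2 := step_mod a u v _ _ ha hu hv
    simp only [Inv]; rw [this, hs, e1, e2]; simp [hx, hu]

lemma Inv_list (l : List ℕ) (hl : ∀ b ∈ l, b % 8 = 1) :
    Inv (l.length % 12) (colA l).1 (colA l).2 (colB l).1 (colB l).2 := by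
  induction l with
  | nil => left; simp [colA, colB, sy]
  | cons a l ih =>
    have h1 := ih (fun b hb => hl b (List.mem_cons_of_mem _ hb))
    have h2 := Inv_step _ a _ _ _ _ (hl a List.mem_cons_self) h1
    have e : (l.length % 12 + 1) % 12 = (a :: l).length % 12 := by
      rw [List.length_cons]; omega
    rw [e] at h2
    exact h2

lemma det_list (l : List ℕ) :
    ((colA l).1 : ℤ) * (colB l).2 - (colB l).1 * (colA l).2 = (-1) ^ l.length := by
  induction l with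
  | nil => simp [colA, colB]
  | cons a l ih =>
    simp only [colA, colB, List.foldr_cons, stp, List.length_cons] at ih ⊢
    push_cast
    rw [pow_succ, ← ih]
    ring

/-- if `t + 2 = (5 ^ k) ^ 2` and `p s - q r = 1`, `p + s = t`, `r` odd positive then `J(p | r) = 1` -/
lemma jac_one (p q r s k : ℕ) (hr : r % 2 = 1) (hdet : (p : ℤ) * s - q * r = 1)
    (ht : (p : ℤ) + s = (5 ^ k) ^ 2 - 2) : J((p : ℤ) | r) = 1 := by
  rw [jacobiSym]
  apply List.prod_eq_one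
  intro x hx
  rw [List.mem_pmap] at hx
  obtain ⟨ℓ, hℓ, rfl⟩ := hx
  have hprime : ℓ.Prime := Nat.prime_of_mem_primeFactorsList hℓ
  have hdvd : ℓ ∣ r := Nat.dvd_of_mem_primeFactorsList hℓ
  have : Fact ℓ.Prime := ⟨hprime⟩
  have hr0 : ((r : ℕ) : ZMod ℓ) = 0 := (ZMod.natCast_eq_zero_iff _ _).mpr hdvd
  have hdet' : (p : ZMod ℓ) * s = 1 := by
    have := congrArg (Int.cast : ℤ → ZMod ℓ) hdet
    push_cast at this
    rw [hr0] at this
    simpa using this
  have ht' : (p : ZMod ℓ) + s = (5 ^ k) ^ 2 - 2 := by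
    have := congrArg (Int.cast : ℤ → ZMod ℓ) ht
    push_cast at this
    exact this
  have hp0 : (p : ZMod ℓ) ≠ 0 := by
    intro h
    rw [h, zero_mul] at hdet'
    exact zero_ne_one hdet'
  have hkey : (p : ZMod ℓ) * (5 ^ k) ^ 2 = (p + 1) ^ 2 := by
    have : (p : ZMod ℓ) * (p + s) = p * ((5 ^ k) ^ 2 - 2) := by rw [ht']
    linear_combination -this + hdet'
  have hp0' : ((p : ℤ) : ZMod ℓ) ≠ 0 := by simpa using hp0
  rw [legendreSym.eq_one_iff ℓ hp0']
  by_cases h5 : ((5 : ZMod ℓ)) = 0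
  · have h5' : ℓ ∣ 5 := by
      have : ((5 : ℕ) : ZMod ℓ) = 0 := by simpa using h5
      exact (ZMod.natCast_eq_zero_iff _ _).mp this
    have hl5 : ℓ = 5 := (Nat.prime_dvd_prime_iff_eq hprime (by norm_num)).mp h5'
    subst hl5
    push_cast
    by_cases hk : k = 0
    · subst hk
      refine ⟨(p : ZMod 5) + 1, ?_⟩
      have := hkey
      simp only [pow_zero, one_pow, mul_one] at this
      linear_combination this
    · rw [h5, zero_pow hk] at hkey
      have h1 : (p : ZMod 5) + 1 = 0 := by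
        have : ((p : ZMod 5) + 1) ^ 2 = 0 := by rw [← hkey]; ring
        exact pow_eq_zero_iff (two_ne_zero) |>.mp this
      have h2 : (p : ZMod 5) = -1 := by linear_combination h1
      rw [h2]
      exact ⟨2, by linear_combination (-1 : ZMod 5) * h5⟩
  · push_cast
    have h5k : (5 : ZMod ℓ) ^ k ≠ 0 := pow_ne_zero _ h5
    refine ⟨((p : ZMod ℓ) + 1) / 5 ^ k, ?_⟩
    field_simp
    rw [hkey]

/-- Main obstruction. -/
theorem no_trace (l : List ℕ) (hl : ∀ b ∈ l, b % 8 = 1) (hev : Even l.length) (k : ℕ) :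
    Matrix.trace ((List.map (fun b : ℕ => (!![(b : ℤ), 1; 1, 0] : Matrix (Fin 2) (Fin 2) ℤ)) l).prod)
      ≠ (5 ^ k) ^ 2 - 2 := by
  intro htr
  rw [prod_eq, Matrix.trace_fin_two_of] at htr
  have hI := Inv_list l hl
  have hd := det_list l
  rw [hev.neg_one_pow] at hd
  have hlen : l.length % 12 % 2 = 0 := by
    have := Nat.even_iff.mp hev
    omega
  have h25 : ((5 : ℤ) ^ k) ^ 2 % 8 = 1 := by
    rw [← pow_mul, mul_comm, pow_mul]
    have : ((5 : ℤ) ^ 2) ^ k ≡ 1 ^ k [ZMOD 8] := Int.ModEq.pow k (by decide)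
    rw [one_pow] at this
    exact this
  have hm : ((colA l).1 + (colB l).2) % 8 = 7 := by
    have : (((colA l).1 : ℤ) + (colB l).2) % 8 = 7 := by
      rw [htr]; omega
    omega
  have hfin : (colA l).2 % 2 = 1 ∧ sy (colA l).1 (colA l).2 = -1 := by
    rcases hI with h | h | h | h | h | h | h | h | h | h | h | h <;>
      obtain ⟨h1, h2, h3, h4, h5, h6⟩ := h <;> first
        | (exfalso; omega)
        | exact ⟨by omega, h6⟩
  obtain ⟨ho, hsy⟩ := hfin
  have hj := jac_one (colA l).1 (colB l).1 (colA l).2 (colB l).2 k ho hd htr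
  rw [sy, if_pos ho, hj] at hsy
  norm_num at hsy

end Pool.Agent.H509R3
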